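import Mathlib

/-! The ring `R[z] / (z^4 + z^3 + z^2 + z + 1)` in coordinates. -/

namespace Pool.Agent.MP_dbc840_nt.r

structure Q5 (R : Type) where
  a : R
  b : R
  c : R
  d : R

namespace Q5

variable {R S : Type}

theorem ext' {x y : Q5 R} (h1 : x.a = y.a) (h2 : x.b = y.b) (h3 : x.c = y.c) (h4 : x.d = y.d) :
    x = y := by
  cases x; cases y; simp_all

theorem ext_iff' {x y : Q5 R} : x = y ↔ x.a = y.a ∧ x.b = y.b ∧ x.c = y.c ∧ x.d = y.d :=
  ⟨fun h => by subst h; simp, fun h => ext' h.1 h.2.1 h.2.2.1 h.2.2.2⟩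

instance [DecidableEq R] : DecidableEq (Q5 R) := fun _ _ => decidable_of_iff _ ext_iff'.symm

variable [CommRing R] [CommRing S]

instance : Zero (Q5 R) := ⟨⟨0, 0, 0, 0⟩⟩
instance : One (Q5 R) := ⟨⟨1, 0, 0, 0⟩⟩
instance : Add (Q5 R) := ⟨fun x y => ⟨x.a + y.a, x.b + y.b, x.c + y.c, x.d + y.d⟩⟩
instance : Neg (Q5 R) := ⟨fun x => ⟨-x.a, -x.b, -x.c, -x.d⟩⟩
instance : Mul (Q5 R) := ⟨fun x y =>
  ⟨x.a * y.a + (x.c * y.d + x.d * y.c) - (x.b * y.d + x.c * y.c + x.d * y.b),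
   x.a * y.b + x.b * y.a + x.d * y.d - (x.b * y.d + x.c * y.c + x.d * y.b),
   x.a * y.c + x.b * y.b + x.c * y.a - (x.b * y.d + x.c * y.c + x.d * y.b),
   x.a * y.d + x.b * y.c + x.c * y.b + x.d * y.a - (x.b * y.d + x.c * y.c + x.d * y.b)⟩⟩

@[simp] theorem zero_a : (0 : Q5 R).a = 0 := rfl
@[simp] theorem zero_b : (0 : Q5 R).b = 0 := rfl
@[simp] theorem zero_c : (0 : Q5 R).c = 0 := rfl
@[simp] theorem zero_d : (0 : Q5 R).d = 0 := rfl
@[simp] theorem one_a : (1 : Q5 R).a = 1 := rfl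
@[simp] theorem one_b : (1 : Q5 R).b = 0 := rfl
@[simp] theorem one_c : (1 : Q5 R).c = 0 := rfl
@[simp] theorem one_d : (1 : Q5 R).d = 0 := rfl
@[simp] theorem add_a (x y : Q5 R) : (x + y).a = x.a + y.a := rfl
@[simp] theorem add_b (x y : Q5 R) : (x + y).b = x.b + y.b := rfl
@[simp] theorem add_c (x y : Q5 R) : (x + y).c = x.c + y.c := rfl
@[simp] theorem add_d (x y : Q5 R) : (x + y).d = x.d + y.d := rfl
@[simp] theorem neg_a (x : Q5 R) : (-x).a = -x.a := rfl
@[simp] theorem neg_b (x : Q5 R) : (-x).b = -x.b := rfl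
@[simp] theorem neg_c (x : Q5 R) : (-x).c = -x.c := rfl
@[simp] theorem neg_d (x : Q5 R) : (-x).d = -x.d := rfl
@[simp] theorem mul_a (x y : Q5 R) : (x * y).a =
    x.a * y.a + (x.c * y.d + x.d * y.c) - (x.b * y.d + x.c * y.c + x.d * y.b) := rfl
@[simp] theorem mul_b (x y : Q5 R) : (x * y).b =
    x.a * y.b + x.b * y.a + x.d * y.d - (x.b * y.d + x.c * y.c + x.d * y.b) := rfl
@[simp] theorem mul_c (x y : Q5 R) : (x * y).c =
    x.a * y.c + x.b * y.b + x.c * y.a - (x.b * y.d + x.c * y.c + x.d * y.b) := rfl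
@[simp] theorem mul_d (x y : Q5 R) : (x * y).d =
    x.a * y.d + x.b * y.c + x.c * y.b + x.d * y.a - (x.b * y.d + x.c * y.c + x.d * y.b) := rfl

instance : CommRing (Q5 R) where
  add_assoc x y w := by apply ext' <;> simp [add_assoc]
  zero_add x := by apply ext' <;> simp
  add_zero x := by apply ext' <;> simp
  add_comm x y := by apply ext' <;> simp [add_comm]
  neg_add_cancel x := by apply ext' <;> simp
  nsmul := nsmulRec
  zsmul := zsmulRec
  left_distrib x y w := by apply ext' <;> simp <;> ring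
  right_distrib x y w := by apply ext' <;> simp <;> ring
  zero_mul x := by apply ext' <;> simp
  mul_zero x := by apply ext' <;> simp
  mul_assoc x y w := by apply ext' <;> simp <;> ring
  one_mul x := by apply ext' <;> simp
  mul_one x := by apply ext' <;> simp
  mul_comm x y := by apply ext' <;> simp <;> ring

/-- Constants. -/
def C : R →+* Q5 R where
  toFun r := ⟨r, 0, 0, 0⟩
  map_one' := rfl
  map_mul' x y := by apply ext' <;> simp
  map_zero' := rfl
  map_add' x y := by apply ext' <;> simp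

@[simp] theorem C_a (r : R) : (C r).a = r := rfl
@[simp] theorem C_b (r : R) : (C r).b = 0 := rfl
@[simp] theorem C_c (r : R) : (C r).c = 0 := rfl
@[simp] theorem C_d (r : R) : (C r).d = 0 := rfl

/-- The root of unity. -/
def z : Q5 R := ⟨0, 1, 0, 0⟩

@[simp] theorem z_a : (z : Q5 R).a = 0 := rfl
@[simp] theorem z_b : (z : Q5 R).b = 1 := rfl
@[simp] theorem z_c : (z : Q5 R).c = 0 := rfl
@[simp] theorem z_d : (z : Q5 R).d = 0 := rfl

theorem z2 : (z : Q5 R) ^ 2 = ⟨0, 0, 1, 0⟩ := by rw [pow_two]; apply ext' <;> simp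
theorem z3 : (z : Q5 R) ^ 3 = ⟨0, 0, 0, 1⟩ := by rw [pow_succ, z2]; apply ext' <;> simp
theorem z4 : (z : Q5 R) ^ 4 = ⟨-1, -1, -1, -1⟩ := by rw [pow_succ, z3]; apply ext' <;> simp
theorem z5 : (z : Q5 R) ^ 5 = 1 := by rw [pow_succ, z4]; apply ext' <;> simp
theorem hz : (z : Q5 R) ^ 4 + z ^ 3 + z ^ 2 + z + 1 = 0 := by
  rw [z4, z3, z2]; apply ext' <;> simp

/-- The universal property. -/
def lift (φ : R →+* S) (w : S) (hw : w ^ 4 + w ^ 3 + w ^ 2 + w + 1 = 0) : Q5 R →+* S where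
  toFun x := φ x.a + φ x.b * w + φ x.c * w ^ 2 + φ x.d * w ^ 3
  map_one' := by simp
  map_mul' x y := by
    simp only [mul_a, mul_b, mul_c, mul_d, map_add, map_sub, map_mul]
    linear_combination (-(φ x.b * φ y.d + φ x.c * φ y.c + φ x.d * φ y.b)
      - (φ x.c * φ y.d + φ x.d * φ y.c) * (w - 1) - φ x.d * φ y.d * w * (w - 1)) * hw
  map_zero' := by simp
  map_add' x y := by simp only [add_a, add_b, add_c, add_d, map_add]; ring

theorem lift_apply (φ : R →+* S) (w : S) (hw) (x : Q5 R) :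
    lift φ w hw x = φ x.a + φ x.b * w + φ x.c * w ^ 2 + φ x.d * w ^ 3 := rfl

@[simp] theorem lift_z (φ : R →+* S) (w : S) (hw) : lift φ w hw z = w := by simp [lift_apply]
@[simp] theorem lift_C (φ : R →+* S) (w : S) (hw) (r : R) : lift φ w hw (C r) = φ r := by
  simp [lift_apply]

theorem eq_comb (x : Q5 R) : x = C x.a + C x.b * z + C x.c * z ^ 2 + C x.d * z ^ 3 := by
  rw [z2, z3]; apply ext' <;> simp

theorem hom_ext {f g : Q5 ℤ →+* S} (h : f z = g z) : f = g := by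
  refine RingHom.ext fun x => ?_
  have e : ∀ (k : Q5 ℤ →+* S) (r : ℤ), k (C r) = r := fun k r => eq_intCast (k.comp C) r
  rw [eq_comb x]
  simp only [map_add, map_mul, map_pow, e, h]

theorem C_int (r : ℤ) : (C r : Q5 ℤ) = r := eq_intCast C r

theorem root_pow {w : S} (hw : w ^ 4 + w ^ 3 + w ^ 2 + w + 1 = 0) :
    (w ^ 3) ^ 4 + (w ^ 3) ^ 3 + (w ^ 3) ^ 2 + w ^ 3 + 1 = 0 ∧
    (w ^ 2) ^ 4 + (w ^ 2) ^ 3 + (w ^ 2) ^ 2 + w ^ 2 + 1 = 0 ∧
    (w ^ 4) ^ 4 + (w ^ 4) ^ 3 + (w ^ 4) ^ 2 + w ^ 4 + 1 = 0 := by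
  have h5 : w ^ 5 = 1 := by linear_combination (w - 1) * hw
  refine ⟨?_, ?_, ?_⟩
  · linear_combination hw + (w ^ 7 + w ^ 2 + w ^ 4 + w) * h5
  · linear_combination hw + (w ^ 3 + w) * h5
  · linear_combination hw + (w ^ 11 + w ^ 6 + w + w ^ 7 + w ^ 2 + w ^ 3) * h5

/-- The conjugations. -/
def s2 : Q5 ℤ →+* Q5 ℤ := lift C (z ^ 2) (root_pow hz).2.1
def s3 : Q5 ℤ →+* Q5 ℤ := lift C (z ^ 3) (root_pow hz).1
def s4 : Q5 ℤ →+* Q5 ℤ := lift C (z ^ 4) (root_pow hz).2.2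

@[simp] theorem s2_z : s2 z = z ^ 2 := lift_z _ _ _
@[simp] theorem s3_z : s3 z = z ^ 3 := lift_z _ _ _
@[simp] theorem s4_z : s4 z = z ^ 4 := lift_z _ _ _

/-- Reduction of the coordinates. -/
def red (R : Type) [CommRing R] : Q5 ℤ →+* Q5 R := lift (Int.castRingHom _) z hz

@[simp] theorem red_z : red R z = z := lift_z _ _ _

/-- Units of absolute value one are roots of unity. -/
theorem unit_eq {e : Q5 ℤ} (h : e * s4 e = 1) : ∃ i, i < 5 ∧ (e = z ^ i ∨ e = -z ^ i) := by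
  have h4 : s4 e = ⟨e.a - e.b, -e.b, e.d - e.b, e.c - e.b⟩ := by
    have a2 : ((z : Q5 ℤ) ^ 4) ^ 2 = z ^ 3 := by linear_combination (z ^ 3) * (z5 (R := ℤ))
    have a3 : ((z : Q5 ℤ) ^ 4) ^ 3 = z ^ 2 := by linear_combination (z ^ 7 + z ^ 2) * (z5 (R := ℤ))
    rw [s4, lift_apply, a2, a3, z2, z3, z4]
    apply ext' <;>
      simp only [mul_a, mul_b, mul_c, mul_d, add_a, add_b, add_c, add_d, C_a, C_b, C_c, C_d] <;> ring
  rw [h4, ext_iff'] at h
  obtain ⟨a, b, c, d⟩ := e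
  simp only [mul_a, mul_b, mul_c, mul_d, one_a, one_b, one_c, one_d] at h
  obtain ⟨h1, h2, h3, h5⟩ := h
  have k : a ^ 2 + b ^ 2 + c ^ 2 + d ^ 2 + (a - b) ^ 2 + (a - c) ^ 2 + (a - d) ^ 2 + (b - c) ^ 2
      + (b - d) ^ 2 + (c - d) ^ 2 = 4 := by linear_combination 4 * h1 - h2 - h3 - h5
  have := sq_nonneg a
  have := sq_nonneg b
  have := sq_nonneg c
  have := sq_nonneg d
  have := sq_nonneg (a - b)
  have := sq_nonneg (a - c)
  have := sq_nonneg (a - d)
  have := sq_nonneg (b - c)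
  have := sq_nonneg (b - d)
  have := sq_nonneg (c - d)
  have ha : a ^ 2 ≤ 4 := by linarith
  have hb : b ^ 2 ≤ 4 := by linarith
  have hc : c ^ 2 ≤ 4 := by linarith
  have hd : d ^ 2 ≤ 4 := by linarith
  have bd : ∀ t : ℤ, t ^ 2 ≤ 4 → -2 ≤ t ∧ t ≤ 2 := fun t ht => by constructor <;> nlinarith
  obtain ⟨a1, a2⟩ := bd a ha
  obtain ⟨b1, b2⟩ := bd b hb
  obtain ⟨c1, c2⟩ := bd c hc
  obtain ⟨d1, d2⟩ := bd d hd
  clear * - k a1 a2 b1 b2 c1 c2 d1 d2
  interval_cases a <;> interval_cases b <;> interval_cases c <;> interval_cases d <;>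
    first | (exfalso; revert k; decide) | decide

theorem cancel_nat {n : ℕ} (hn : n ≠ 0) {x y : Q5 ℤ} (h : (n : Q5 ℤ) * x = n * y) : x = y := by
  have e : (n : Q5 ℤ) = C (n : ℤ) := by rw [C_int]; simp
  have hn' : (n : ℤ) ≠ 0 := by exact_mod_cast hn
  rw [e, ext_iff'] at h
  simp only [mul_a, mul_b, mul_c, mul_d, C_a, C_b, C_c, C_d, zero_mul, add_zero, sub_zero] at h
  exact ext' (mul_left_cancel₀ hn' h.1) (mul_left_cancel₀ hn' h.2.1)
    (mul_left_cancel₀ hn' h.2.2.1) (mul_left_cancel₀ hn' h.2.2.2)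

theorem prim_root {F : Type} [CommRing F] [IsDomain F] {w : F} (hw : IsPrimitiveRoot w 5) :
    w ^ 4 + w ^ 3 + w ^ 2 + w + 1 = 0 := by
  have := hw.geom_sum_eq_zero (by norm_num)
  simp only [Finset.sum_range_succ, Finset.sum_range_zero] at this
  linear_combination this

/-- An embedding into the complex numbers. -/
theorem exists_inj : ∃ i : Q5 ℤ →+* ℂ, Function.Injective i := by
  have hw := Complex.isPrimitiveRoot_exp 5 (by norm_num)
  set w := Complex.exp (2 * Real.pi * Complex.I / (5 : ℕ))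
  refine ⟨lift (Int.castRingHom ℂ) w (prim_root hw), ?_⟩
  rw [injective_iff_map_eq_zero]
  intro x hx
  rw [lift_apply] at hx
  let p : Polynomial ℚ := Polynomial.C (x.d : ℚ) * Polynomial.X ^ 3
    + Polynomial.C (x.c : ℚ) * Polynomial.X ^ 2 + Polynomial.C (x.b : ℚ) * Polynomial.X
    + Polynomial.C (x.a : ℚ)
  have hp : Polynomial.aeval w p = 0 := by
    simp only [p, map_add, map_mul, map_pow, Polynomial.aeval_X, map_intCast]
    simp only [eq_intCast] at hx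
    linear_combination hx
  have hd : p.degree ≤ 3 := Polynomial.degree_cubic_le
  have h0 : p = 0 := by
    by_contra h0
    have h1 := minpoly.degree_le_of_ne_zero ℚ w h0 hp
    rw [← Polynomial.cyclotomic_eq_minpoly_rat hw (by norm_num),
      Polynomial.degree_cyclotomic] at h1
    have h2 : Nat.totient 5 = 4 := by decide
    rw [h2] at h1
    exact absurd (h1.trans hd) (by decide)
  have c0 := congrArg (fun q => Polynomial.coeff q 0) h0
  have c1 := congrArg (fun q => Polynomial.coeff q 1) h0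
  have c2 := congrArg (fun q => Polynomial.coeff q 2) h0
  have c3 := congrArg (fun q => Polynomial.coeff q 3) h0
  simp only [p, Polynomial.coeff_add, Polynomial.coeff_C_mul, Polynomial.coeff_X_pow,
    Polynomial.coeff_X, Polynomial.coeff_C, Polynomial.coeff_zero] at c0 c1 c2 c3
  apply ext' <;> simp_all

instance : IsDomain (Q5 ℤ) := by
  obtain ⟨i, hi⟩ := exists_inj
  exact hi.isDomain i

theorem z_prim : IsPrimitiveRoot (z : Q5 ℤ) 5 := by
  have : Fact (Nat.Prime 5) := ⟨by norm_num⟩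
  have h : orderOf (z : Q5 ℤ) = 5 := orderOf_eq_prime z5 (by decide)
  exact h ▸ IsPrimitiveRoot.orderOf z

end Q5

end Pool.Agent.MP_dbc840_nt.r
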