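import Mathlib
import Pool.Agent.MP_dbc840_nt.r.Q5

/-! Quintic characters modulo a prime, their Jacobi sums and Gauss sums. -/

namespace Pool.Agent.MP_dbc840_nt.r

open Q5

theorem pow_mod5 {M : Type*} [Monoid M] {u : M} (h : u ^ 5 = 1) (i : ℕ) : u ^ i = u ^ (i % 5) := by
  conv_lhs => rw [← Nat.div_add_mod i 5, pow_add, pow_mul, h, one_pow, one_mul]

/-- `χ` is the quintic character attached to the root `w`. -/
def IsChi {q : ℕ} (w : ZMod q) (χ : MulChar (ZMod q) (Q5 ℤ)) : Prop :=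
  (∀ t, t ≠ 0 → ∃ i, χ t = z ^ i ∧ t ^ ((q - 1) / 5) = w ^ i) ∧
    ∃ t i, t ≠ 0 ∧ 0 < i ∧ i < 5 ∧ χ t = z ^ i

variable {q : ℕ} [Fact q.Prime] {w : ZMod q} {χ : MulChar (ZMod q) (Q5 ℤ)}

theorem five_dvd (hw : IsPrimitiveRoot w 5) : 5 ∣ q - 1 :=
  hw.dvd_of_pow_eq_one _ (ZMod.pow_card_sub_one_eq_one (hw.ne_zero (by norm_num)))

theorem exists_chi (hw : IsPrimitiveRoot w 5) : ∃ χ, IsChi w χ := by
  obtain ⟨m, hm⟩ := five_dvd hw
  have hm' : (q - 1) / 5 = m := by omega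
  have h1 : ∀ t : ZMod q, ∃ i, i < 5 ∧ (t ≠ 0 → w ^ i = t ^ m) := by
    intro t
    by_cases ht : t = 0
    · exact ⟨0, by norm_num, fun h => absurd ht h⟩
    · obtain ⟨i, hi, h⟩ := hw.eq_pow_of_pow_eq_one (ξ := t ^ m)
        (by rw [← pow_mul, mul_comm, ← hm]; exact ZMod.pow_card_sub_one_eq_one ht)
      exact ⟨i, hi, fun _ => h⟩
  choose ind hi hind using h1
  have key : ∀ i j, w ^ i = w ^ j → (z : Q5 ℤ) ^ i = z ^ j := by
    intro i j h
    rw [pow_mod5 hw.pow_eq_one i, pow_mod5 hw.pow_eq_one j] at h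
    rw [pow_mod5 z5 i, pow_mod5 z5 j,
      hw.pow_inj (Nat.mod_lt _ (by norm_num)) (Nat.mod_lt _ (by norm_num)) h]
  let χ : MulChar (ZMod q) (Q5 ℤ) :=
    { toFun := fun t => if t = 0 then 0 else z ^ ind t
      map_one' := by
        rw [if_neg one_ne_zero, key _ 0 (by rw [hind 1 one_ne_zero]; simp), pow_zero]
      map_mul' := fun s t => by
        by_cases hs : s = 0
        · simp [hs]
        by_cases ht : t = 0
        · simp [ht]
        rw [if_neg (mul_ne_zero hs ht), if_neg hs, if_neg ht, ← pow_add]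
        apply key
        rw [pow_add, hind _ (mul_ne_zero hs ht), hind s hs, hind t ht, mul_pow]
      map_nonunit' := fun t ht => by
        have : t = 0 := by simpa using ht
        simp [this] }
  have hχ : ∀ t, t ≠ 0 → χ t = z ^ ind t := fun t ht => if_neg ht
  refine ⟨χ, fun t ht => ⟨ind t, hχ t ht, by rw [hm', hind t ht]⟩, ?_⟩
  obtain ⟨g, hg⟩ := IsCyclic.exists_ofOrder_eq_natCard (α := (ZMod q)ˣ)
  rw [Nat.card_eq_fintype_card, ZMod.card_units] at hg
  have h2 := (Fact.out : q.Prime).two_le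
  refine ⟨g, ind g, g.ne_zero, Nat.pos_of_ne_zero fun h0 => ?_, hi _, hχ _ g.ne_zero⟩
  have h3 := hind g g.ne_zero
  rw [h0, pow_zero] at h3
  have h4 : g ^ m = 1 := Units.ext (by simpa using h3.symm)
  exact pow_ne_one_of_lt_orderOf (n := m) (by omega) (by omega) h4

theorem IsChi.pow5 (h : IsChi w χ) : χ ^ 5 = 1 := by
  refine MulChar.ext fun a => ?_
  obtain ⟨i, hi, -⟩ := h.1 a a.ne_zero
  rw [MulChar.pow_apply_coe, hi, MulChar.one_apply_coe, ← pow_mul, mul_comm, pow_mul, z5, one_pow]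

theorem IsChi.comp (h : IsChi w χ) {f : Q5 ℤ →+* Q5 ℤ} {j : ℕ} (hf : f z = z ^ j) :
    χ.ringHomComp f = χ ^ j := by
  refine MulChar.ext fun a => ?_
  obtain ⟨i, hi, -⟩ := h.1 a a.ne_zero
  rw [MulChar.pow_apply_coe, MulChar.ringHomComp_apply, hi, map_pow, hf, ← pow_mul, ← pow_mul,
    mul_comm]

/-- Jacobi sums of powers of `χ`. -/
noncomputable def J (χ : MulChar (ZMod q) (Q5 ℤ)) (a b : ℕ) : Q5 ℤ := jacobiSum (χ ^ a) (χ ^ b)

theorem IsChi.conj (h : IsChi w χ) {f : Q5 ℤ →+* Q5 ℤ} {j : ℕ} (hf : f z = z ^ j) (a b : ℕ) :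
    f (J χ a b) = J χ (j * a % 5) (j * b % 5) := by
  rw [J, J, ← jacobiSum_ringHomComp, ← MulChar.ringHomComp_pow, ← MulChar.ringHomComp_pow,
    h.comp hf, ← pow_mul, ← pow_mul, ← pow_mod5 h.pow5, ← pow_mod5 h.pow5]

theorem IsChi.vanish (h : IsChi w χ) (hw : IsPrimitiveRoot w 5) {φ : Q5 ℤ →+* ZMod q}
    (hφ : φ z = w) {a b : ℕ} (ha : 0 < a) (hb : 0 < b) (hab : a + b < 5) : φ (J χ a b) = 0 := by
  obtain ⟨m, hm⟩ := five_dvd hw
  have hm' : (q - 1) / 5 = m := by omega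
  have h2 := (Fact.out : q.Prime).two_le
  have hm0 : 0 < m := by omega
  have h1 : ∀ t, φ (χ t) = t ^ m := by
    intro t
    by_cases ht : t = 0
    · rw [ht, χ.map_zero, map_zero, zero_pow hm0.ne']
    · obtain ⟨i, hi, hi'⟩ := h.1 t ht
      rw [hi, map_pow, hφ, ← hi', hm']
  rw [J, jacobiSum, map_sum]
  have h3 : ∀ t : ZMod q, φ ((χ ^ a) t * (χ ^ b) (1 - t)) =
      ∑ k ∈ Finset.range (m * b + 1), (((m * b).choose k : ZMod q) * (-1) ^ k) * t ^ (m * a + k) := by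
    intro t
    rw [MulChar.pow_apply' _ ha.ne', MulChar.pow_apply' _ hb.ne', map_mul, map_pow, map_pow, h1, h1,
      ← pow_mul, ← pow_mul, sub_eq_neg_add, add_pow, Finset.mul_sum]
    refine Finset.sum_congr rfl fun k _ => ?_
    rw [neg_pow t, pow_add]; ring
  rw [Finset.sum_congr rfl fun t _ => h3 t, Finset.sum_comm]
  refine Finset.sum_eq_zero fun k hk => ?_
  rw [← Finset.mul_sum, FiniteField.sum_pow_lt_card_sub_one, mul_zero]
  rw [ZMod.card, hm]
  have := Finset.mem_range.1 hk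
  nlinarith

theorem IsChi.order (h : IsChi w χ) {F : Type} [CommRing F] [IsDomain F] {ρ : Q5 ℤ →+* F}
    (hρ : ρ z ≠ 1) : orderOf (χ.ringHomComp ρ) = 5 := by
  have : Fact (Nat.Prime 5) := ⟨by norm_num⟩
  refine orderOf_eq_prime ?_ fun h1 => ?_
  · rw [MulChar.ringHomComp_pow, h.pow5, MulChar.ringHomComp_one]
  · obtain ⟨t, i, ht, h0, h5, hi⟩ := h.2
    have h2 : orderOf (ρ z) = 5 := orderOf_eq_prime (by rw [← map_pow, z5, map_one]) hρ
    have h3 := congrArg (fun c : MulChar (ZMod q) F => c t) h1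
    simp only [MulChar.ringHomComp_apply, hi, map_pow, MulChar.one_apply (Ne.isUnit ht)] at h3
    exact pow_ne_one_of_lt_orderOf h0.ne' (by omega) h3

theorem IsChi.norm (h : IsChi w χ) {a b : ℕ} (ha : 0 < a) (hb : 0 < b) (hab : a + b < 5) :
    J χ a b * s4 (J χ a b) = q := by
  obtain ⟨ι, hι⟩ := exists_inj
  have hz1 : ι z ≠ 1 := fun h1 => by
    have : (z : Q5 ℤ) = 1 := hι (by rw [h1, map_one])
    revert this; decide
  have ho := h.order hz1
  have hinv : ∀ c : ℕ, ((χ.ringHomComp ι) ^ c)⁻¹ = (χ ^ (4 * c % 5)).ringHomComp ι := by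
    intro c
    refine inv_eq_of_mul_eq_one_right ?_
    rw [← pow_mod5 h.pow5, MulChar.ringHomComp_pow, ← MulChar.ringHomComp_mul, ← pow_add,
      show c + 4 * c = 5 * c by ring, pow_mul, h.pow5, one_pow, MulChar.ringHomComp_one]
  have h1 := jacobiSum_mul_jacobiSum_inv (F := ZMod q) (F' := ℂ)
    (by rw [ringChar.eq_zero, ZMod.ringChar_zmod_n]; exact (Fact.out : q.Prime).ne_zero.symm)
    (χ := (χ.ringHomComp ι) ^ a) (φ := (χ.ringHomComp ι) ^ b)
    (pow_ne_one_of_lt_orderOf ha.ne' (by omega)) (pow_ne_one_of_lt_orderOf hb.ne' (by omega))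
    (by rw [← pow_add]; exact pow_ne_one_of_lt_orderOf (by omega) (by omega))
  rw [hinv, hinv, MulChar.ringHomComp_pow, MulChar.ringHomComp_pow, jacobiSum_ringHomComp,
    jacobiSum_ringHomComp, ZMod.card] at h1
  apply hι
  rw [h.conj s4_z, map_mul, map_natCast]
  exact h1

/-- Congruent to `1` or `-1` modulo `(z - 1) ^ 2`. -/
def T (y : Q5 ℤ) : Prop :=
  (z - 1) ^ 2 * red (ZMod 5) y = (z - 1) ^ 2 ∨ (z - 1) ^ 2 * red (ZMod 5) y = -(z - 1) ^ 2

theorem T.mul {y y' : Q5 ℤ} (h : T y) (h' : T y') : T (y * y') := by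
  unfold T at *
  rw [map_mul, ← mul_assoc]
  rcases h with h | h <;> rcases h' with h' | h' <;> rw [h] <;> simp [h']

theorem IsChi.cong (h : IsChi w χ) (hw : IsPrimitiveRoot w 5) (a b : ℕ) : T (J χ a b) := by
  have h1 : ∀ c : ℕ, (χ ^ c) ^ 5 = 1 := fun c => by
    rw [← pow_mul, mul_comm, pow_mul, h.pow5, one_pow]
  obtain ⟨y, -, hy⟩ := exists_jacobiSum_eq_neg_one_add (n := 5) (by norm_num) (h1 a) (h1 b)
    (by rw [ZMod.card]; exact five_dvd hw) z_prim
  right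
  have h2 : ((z : Q5 (ZMod 5)) - 1) ^ 2 * (z - 1) ^ 2 = 0 := by decide
  rw [J, hy]
  simp only [map_add, map_neg, map_one, map_mul, map_pow, map_sub, red_z]
  linear_combination red (ZMod 5) y * h2

theorem IsChi.frob (h : IsChi w χ) (p f M : ℕ) [Fact p.Prime] (hP : p ^ f = 5 * M + 1)
    (hpq : Nat.Coprime p q) (ρ : Q5 ℤ →+* AlgebraicClosure (ZMod p)) (hρ : ρ z ≠ 1) :
    ρ (q * J χ 1 1 * J χ 1 2 * J χ 1 3) ^ M * ρ (χ ((p : ZMod q) ^ f)) = 1 := by
  have hq0 : (q : ZMod p) ≠ 0 := fun h0 => by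
    rw [ZMod.natCast_eq_zero_iff] at h0
    exact (Fact.out : p.Prime).one_lt.ne' (Nat.Coprime.eq_one_of_dvd hpq h0)
  have : NeZero (q : ZMod p) := ⟨hq0⟩
  have : NeZero q := ⟨(Fact.out : q.Prime).ne_zero⟩
  obtain ⟨ν, hν⟩ := HasEnoughRootsOfUnity.exists_primitiveRoot (AlgebraicClosure (ZMod p)) q
  have hψ := AddChar.zmodChar_primitive_of_primitive_root q hν
  set ψ := AddChar.zmodChar q ((IsPrimitiveRoot.iff_def ν q).mp hν).left
  have ho := h.order hρ
  set c := χ.ringHomComp ρ with hc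
  have c5 : c ^ 5 = 1 := ho ▸ pow_orderOf_eq_one c
  have c1 : c ≠ 1 := fun h1 => by rw [h1, orderOf_one] at ho; omega
  have g5 := gaussSum_pow_eq_prod_jacobiSum (χ := c) (ψ := ψ) (by omega) hψ
  have cm : c (-1) = 1 := by
    have h1 : c (-1) = (c ^ 5) (-1) := by
      rw [MulChar.pow_apply' _ (by norm_num), ← map_pow]; norm_num
    rw [h1, c5, MulChar.one_apply isUnit_one.neg]
  have e : ∀ i, jacobiSum c (c ^ i) = ρ (J χ 1 i) := fun i => by
    rw [J, pow_one, ← jacobiSum_ringHomComp, hc, MulChar.ringHomComp_pow]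
  rw [ho, cm, ZMod.card, show Finset.Ico 1 (5 - 1) = {1, 2, 3} by decide] at g5
  rw [Finset.prod_insert (by decide), Finset.prod_insert (by decide), Finset.prod_singleton,
    e, e, e] at g5
  have gq : ((Fintype.card (ZMod q) : ℕ) : AlgebraicClosure (ZMod p)) ≠ 0 := by
    rw [ZMod.card, ← map_natCast (algebraMap (ZMod p) (AlgebraicClosure (ZMod p)))]
    exact (map_ne_zero _).2 hq0
  have g0 := gaussSum_ne_zero_of_nontrivial gq c1 hψ
  have gf : ∀ k, gaussSum c ψ ^ p ^ k = gaussSum (c ^ p ^ k) (ψ ^ p ^ k) := by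
    intro k
    induction k with
    | zero => simp
    | succ k ih => rw [pow_succ, pow_mul, ih, gaussSum_frob, ← pow_mul, ← pow_mul]
  have hu : IsUnit ((p ^ f : ℕ) : ZMod q) :=
    (ZMod.isUnit_iff_coprime _ _).2 (Nat.Coprime.pow_left f hpq)
  have h1 := gaussSum_mulShift c ψ hu.unit
  have h2 := gf f
  rw [AddChar.pow_mulShift, show c ^ p ^ f = c by rw [hP, pow_succ, pow_mul, c5, one_pow, one_mul]]
    at h2
  rw [hu.unit_spec, ← h2, hP, pow_succ, pow_mul, g5, ← hP, hc, MulChar.ringHomComp_apply] at h1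
  apply mul_right_cancel₀ g0
  simp only [map_mul, map_natCast]
  rw [Nat.cast_pow] at h1
  rw [one_mul, ← hc] at *
  linear_combination h1

end Pool.Agent.MP_dbc840_nt.r
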