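import Mathlib
import Pool.Agent.MP_dbc840_nt.r.Chi

/-! The case of Eisenstein's quintic reciprocity law for `x + z` with `x ≡ 1 mod 5`. -/

namespace Pool.Agent.MP_dbc840_nt.r

open Q5

/-- Membership in the ideal generated by `n` and `β`. -/
def Mem (n : ℕ) (β y : Q5 ℤ) : Prop := ∃ u v, y = n * u + β * v

theorem Mem.mul {n n' : ℕ} {β y y' : Q5 ℤ} (h : Mem n β y) (h' : Mem n' β y') :
    Mem (n * n') β (y * y') := by
  obtain ⟨u, v, rfl⟩ := h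
  obtain ⟨u', v', rfl⟩ := h'
  exact ⟨u * u', n * u * v' + v * (n' * u' + β * v'), by push_cast; ring⟩

theorem Mem.map {n : ℕ} {β y : Q5 ℤ} (h : Mem n β y) (f : Q5 ℤ →+* Q5 ℤ) : Mem n (f β) (f y) := by
  obtain ⟨u, v, rfl⟩ := h
  exact ⟨f u, f v, by simp⟩

theorem mem_of_zero {q : ℕ} {x : ℤ} {φ : Q5 ℤ →+* ZMod q} (hφ : φ z = -(x : ZMod q)) {y : Q5 ℤ}
    (h : φ y = 0) : Mem q ((x : Q5 ℤ) + z) y := by
  have e := eq_comb y
  simp only [C_int] at e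
  have h1 : ((y.a - y.b * x + y.c * x ^ 2 - y.d * x ^ 3 : ℤ) : ZMod q) = 0 := by
    rw [e] at h
    simp only [map_add, map_mul, map_pow, map_intCast, hφ] at h
    push_cast
    linear_combination h
  obtain ⟨u, hu⟩ := (ZMod.intCast_zmod_eq_zero_iff_dvd _ _).1 h1
  refine ⟨u, (y.b : Q5 ℤ) + (y.c : Q5 ℤ) * (z - (x : Q5 ℤ))
    + (y.d : Q5 ℤ) * (z ^ 2 - (x : Q5 ℤ) * z + (x : Q5 ℤ) ^ 2), ?_⟩
  have h2 := congrArg (Int.cast : ℤ → Q5 ℤ) hu
  push_cast at h2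
  linear_combination e + h2

/-- The norm of `x + z`. -/
def Nm (x : ℤ) : ℤ := x ^ 4 - x ^ 3 + x ^ 2 - x + 1

/-- Products of Jacobi sums and of characters over the prime factors of `n`. -/
structure Dat (x : ℤ) (n : ℕ) (A B D : Q5 ℤ) (s : ℤ → Q5 ℤ) : Prop where
  a1 : Mem n ((x : Q5 ℤ) + z) A
  a3 : Mem n ((x : Q5 ℤ) + z ^ 3) A
  b1 : Mem n ((x : Q5 ℤ) + z) B
  b2 : Mem n ((x : Q5 ℤ) + z ^ 2) B
  d1 : Mem n ((x : Q5 ℤ) + z) D
  d3 : Mem n ((x : Q5 ℤ) + z ^ 3) D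
  nA : A * s4 A = n
  nB : B * s4 B = n
  nD : D * s4 D = n
  tA : T A
  tB : T B
  tD : T D
  sm : ∀ y y', s (y * y') = s y * s y'
  s1 : ∀ y : ℤ, IsCoprime y n → ∃ i, s y = z ^ i
  s5 : ∀ y m : ℤ, IsCoprime y n → (n : ℤ) ∣ y - m ^ 5 → s y = 1
  fr : ∀ (p f M : ℕ) [Fact p.Prime], p ^ f = 5 * M + 1 → Nat.Coprime p n →
    ∀ ρ : Q5 ℤ →+* AlgebraicClosure (ZMod p), ρ z ≠ 1 →
      ρ (n * A * B * D) ^ M * ρ (s ((p : ℤ) ^ f)) = 1

theorem dat_one (x : ℤ) : Dat x 1 1 1 1 (fun _ => 1) := by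
  have h : ∀ β, Mem 1 β 1 := fun β => ⟨1, 0, by simp⟩
  have t : T 1 := Or.inl (by simp)
  exact ⟨h _, h _, h _, h _, h _, h _, by simp, by simp, by simp, t, t, t, by simp,
    fun _ _ => ⟨0, by simp⟩, by simp, by simp⟩

theorem Dat.mul {x : ℤ} {n n' : ℕ} {A B D A' B' D' : Q5 ℤ} {s s' : ℤ → Q5 ℤ}
    (h : Dat x n A B D s) (h' : Dat x n' A' B' D' s') :
    Dat x (n * n') (A * A') (B * B') (D * D') (fun y => s y * s' y) where
  a1 := h.a1.mul h'.a1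
  a3 := h.a3.mul h'.a3
  b1 := h.b1.mul h'.b1
  b2 := h.b2.mul h'.b2
  d1 := h.d1.mul h'.d1
  d3 := h.d3.mul h'.d3
  nA := by rw [map_mul, mul_mul_mul_comm, h.nA, h'.nA, Nat.cast_mul]
  nB := by rw [map_mul, mul_mul_mul_comm, h.nB, h'.nB, Nat.cast_mul]
  nD := by rw [map_mul, mul_mul_mul_comm, h.nD, h'.nD, Nat.cast_mul]
  tA := h.tA.mul h'.tA
  tB := h.tB.mul h'.tB
  tD := h.tD.mul h'.tD
  sm y y' := by rw [h.sm, h'.sm, mul_mul_mul_comm]
  s1 y hy := by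
    rw [Nat.cast_mul] at hy
    obtain ⟨i, hi⟩ := h.s1 y hy.of_mul_right_left
    obtain ⟨j, hj⟩ := h'.s1 y hy.of_mul_right_right
    exact ⟨i + j, by rw [hi, hj, pow_add]⟩
  s5 y m hy hd := by
    rw [Nat.cast_mul] at hy hd
    rw [h.s5 y m hy.of_mul_right_left (dvd_of_mul_right_dvd hd),
      h'.s5 y m hy.of_mul_right_right (dvd_of_mul_left_dvd hd), one_mul]
  fr p f M _ hP hc ρ hρ := by
    have h1 := h.fr p f M hP (Nat.Coprime.coprime_mul_right_right hc) ρ hρ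
    have h2 := h'.fr p f M hP (Nat.Coprime.coprime_mul_left_right hc) ρ hρ
    have e : ((n * n' : ℕ) : Q5 ℤ) * (A * A') * (B * B') * (D * D') =
        (n * A * B * D) * (n' * A' * B' * D') := by push_cast; ring
    rw [e, map_mul, mul_pow, map_mul ρ (s _), mul_mul_mul_comm, h1, h2, one_mul]

theorem two_ne : (2 : ZMod 5) ≠ 0 := by decide

theorem dat_prime {x : ℤ} (hx : 5 ∣ x - 1) {q : ℕ} (hq : q.Prime) (hd : (q : ℤ) ∣ Nm x) :
    ∃ A B D s, Dat x q A B D s := by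
  have : Fact q.Prime := ⟨hq⟩
  have : Fact (Nat.Prime 5) := ⟨by norm_num⟩
  have h0 : (-(x : ZMod q)) ^ 4 + (-(x : ZMod q)) ^ 3 + (-(x : ZMod q)) ^ 2 + (-(x : ZMod q)) + 1
      = 0 := by
    have := (ZMod.intCast_zmod_eq_zero_iff_dvd _ _).2 hd
    rw [Nm] at this
    push_cast at this
    linear_combination this
  have h1 : -(x : ZMod q) ≠ 1 := fun h => by
    have h2 : ((5 : ℕ) : ZMod q) = 0 := by rw [h] at h0; push_cast; linear_combination h0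
    rw [ZMod.natCast_eq_zero_iff, Nat.prime_dvd_prime_iff_eq hq (by norm_num)] at h2
    subst h2
    have h3 := (ZMod.intCast_zmod_eq_zero_iff_dvd _ 5).2 hx
    push_cast at h3
    have h4 : (2 : ZMod 5) = 0 := by linear_combination -h - h3
    exact two_ne h4
  have h5 : orderOf (-(x : ZMod q)) = 5 :=
    orderOf_eq_prime (by linear_combination (-(x : ZMod q) - 1) * h0) h1
  have hw : IsPrimitiveRoot (-(x : ZMod q)) 5 := h5 ▸ IsPrimitiveRoot.orderOf _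
  obtain ⟨χ, h⟩ := exists_chi hw
  have hφ : lift (Int.castRingHom (ZMod q)) _ h0 z = -(x : ZMod q) := lift_z _ _ _
  have v : ∀ a b, 0 < a → 0 < b → a + b < 5 → Mem q ((x : Q5 ℤ) + z) (J χ a b) := fun a b ha hb hab =>
    mem_of_zero hφ (h.vanish hw hφ ha hb hab)
  have u : ∀ y : ℤ, IsCoprime y q → (y : ZMod q) ≠ 0 := fun y hy h0 => by
    have h2 := (ZMod.intCast_zmod_eq_zero_iff_dvd _ _).1 h0
    have h3 := hy.isUnit_of_dvd' h2 dvd_rfl
    rw [Int.isUnit_iff_natAbs_eq, Int.natAbs_natCast] at h3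
    exact hq.one_lt.ne' h3
  refine ⟨J χ 1 1, J χ 1 2, J χ 1 3, fun y => χ y, v 1 1 (by omega) (by omega) (by omega), ?_,
    v 1 2 (by omega) (by omega) (by omega), ?_, v 1 3 (by omega) (by omega) (by omega), ?_,
    h.norm (by omega) (by omega) (by omega), h.norm (by omega) (by omega) (by omega),
    h.norm (by omega) (by omega) (by omega), h.cong hw _ _, h.cong hw _ _, h.cong hw _ _,
    fun y y' => by rw [Int.cast_mul, map_mul], fun y hy => ?_, fun y m hy hm => ?_,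
    fun p f M _ hP hc ρ hρ => ?_⟩
  · simpa [h.conj s3_z] using (v 2 2 (by omega) (by omega) (by omega)).map s3
  · simpa [h.conj s2_z] using (v 3 1 (by omega) (by omega) (by omega)).map s2
  · simpa [h.conj s3_z] using (v 2 1 (by omega) (by omega) (by omega)).map s3
  · obtain ⟨i, hi, -⟩ := h.1 y (u y hy)
    exact ⟨i, hi⟩
  · have h2 := (ZMod.intCast_zmod_eq_zero_iff_dvd _ _).2 hm
    push_cast at h2
    have h3 : (y : ZMod q) = (m : ZMod q) ^ 5 := by linear_combination h2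
    have h4 : (m : ZMod q) ≠ 0 := fun h6 => u y hy (by rw [h3, h6]; norm_num)
    show χ y = 1
    rw [h3, map_pow, ← MulChar.pow_apply' _ (by norm_num), h.pow5, MulChar.one_apply h4.isUnit]
  · have := h.frob p f M hP hc ρ hρ
    simpa using this

theorem exists_dat {x : ℤ} (hx : 5 ∣ x - 1) (n : ℕ) :
    n ≠ 0 → (n : ℤ) ∣ Nm x → ∃ A B D s, Dat x n A B D s := by
  induction n using induction_on_primes with
  | zero => exact fun h => absurd rfl h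
  | one => exact fun _ _ => ⟨_, _, _, _, dat_one x⟩
  | prime_mul p a hp ih =>
    intro h0 hd
    rw [Nat.cast_mul] at hd
    obtain ⟨A, B, D, s, h⟩ := dat_prime hx hp (dvd_of_mul_right_dvd hd)
    obtain ⟨A', B', D', s', h'⟩ := ih (right_ne_zero_of_mul h0) (dvd_of_mul_left_dvd hd)
    exact ⟨_, _, _, _, h.mul h'⟩

/-- The Stickelberger product of the primary associate of `x + z`. -/
def W {R : Type} [CommRing R] (x : R) : Q5 R :=
  z ^ 2 * (C x + z) ^ 4 * (C x + z ^ 2) ^ 2 * (C x + z ^ 3) ^ 3 * (C x + z ^ 4)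

theorem red_W (R : Type) [CommRing R] (x : ℤ) : red R (W x) = W (x : R) := by
  have e : C (x : R) = (x : Q5 R) := map_intCast C x
  simp only [W, C_int, map_mul, map_pow, map_add, red_z, map_intCast, e]

theorem nm_eq (x : ℤ) :
    ((Nm x : ℤ) : Q5 ℤ) = ((x : Q5 ℤ) + z) * ((x : Q5 ℤ) + z ^ 2) * ((x : Q5 ℤ) + z ^ 3) * ((x : Q5 ℤ) + z ^ 4) := by
  rw [← C_int, ← C_int, z2, z3, z4, Nm]
  apply ext' <;>
    simp only [mul_a, mul_b, mul_c, mul_d, add_a, add_b, add_c, add_d, C_a, C_b, C_c, C_d, z_a,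
      z_b, z_c, z_d] <;> ring

theorem Dat.prod_eq {x : ℤ} (hx : 5 ∣ x - 1) {n : ℕ} (hn : (n : ℤ) = Nm x) (hn0 : n ≠ 0)
    {A B D : Q5 ℤ} {s : ℤ → Q5 ℤ} (h : Dat x n A B D s) :
    n * A * B * D = W x ∨ n * A * B * D = -W x := by
  have e : (n : Q5 ℤ) = ((x : Q5 ℤ) + z) * ((x : Q5 ℤ) + z ^ 2) * ((x : Q5 ℤ) + z ^ 3) * ((x : Q5 ℤ) + z ^ 4) := by
    rw [← nm_eq, ← hn, Int.cast_natCast]
  have dv : ∀ {β y : Q5 ℤ}, β ∣ (n : Q5 ℤ) → Mem n β y → β ∣ y := by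
    rintro β y hβ ⟨u, v, rfl⟩
    exact dvd_add (hβ.mul_right u) (dvd_mul_right β v)
  have e1 : ((x : Q5 ℤ) + z : Q5 ℤ) ∣ n := ⟨((x : Q5 ℤ) + z ^ 2) * ((x : Q5 ℤ) + z ^ 3) * ((x : Q5 ℤ) + z ^ 4), by rw [e]; ring⟩
  have e2 : ((x : Q5 ℤ) + z ^ 2 : Q5 ℤ) ∣ n := ⟨((x : Q5 ℤ) + z) * ((x : Q5 ℤ) + z ^ 3) * ((x : Q5 ℤ) + z ^ 4), by rw [e]; ring⟩
  have e3 : ((x : Q5 ℤ) + z ^ 3 : Q5 ℤ) ∣ n := ⟨((x : Q5 ℤ) + z) * ((x : Q5 ℤ) + z ^ 2) * ((x : Q5 ℤ) + z ^ 4), by rw [e]; ring⟩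
  obtain ⟨k, hk⟩ := hx
  have hk' : (x : Q5 ℤ) = 1 + 5 * k := by
    rw [show x = 1 + 5 * k by linear_combination hk]; push_cast; ring
  have n5 : (n : Q5 ℤ) = 1 + 5 * (2 * k + 20 * k ^ 2 + 75 * k ^ 3 + 125 * k ^ 4) := by
    rw [← Int.cast_natCast, hn, Nm]; push_cast; rw [hk']; ring
  have cop : ∀ {β β' y : Q5 ℤ}, β ∣ (n : Q5 ℤ) → (β - β') * y = 5 → IsCoprime β β' := by
    rintro β β' y ⟨c, hc⟩ hy
    refine ⟨c - y * (2 * k + 20 * k ^ 2 + 75 * k ^ 3 + 125 * k ^ 4),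
      y * (2 * k + 20 * k ^ 2 + 75 * k ^ 3 + 125 * k ^ 4), ?_⟩
    linear_combination n5 - hc - (2 * k + 20 * k ^ 2 + 75 * k ^ 3 + 125 * k ^ 4 : Q5 ℤ) * hy
  have f3 : ((z : Q5 ℤ) - z ^ 3) * (z ^ 4 * (1 - z) * (1 - z ^ 3) * (1 - z ^ 4)) = 5 := by decide
  have f2 : ((z : Q5 ℤ) - z ^ 2) * (z ^ 4 * (1 - z ^ 2) * (1 - z ^ 3) * (1 - z ^ 4)) = 5 := by
    decide
  have c3 : IsCoprime ((x : Q5 ℤ) + z : Q5 ℤ) ((x : Q5 ℤ) + z ^ 3) := cop e1 (by rw [← f3, add_sub_add_left_eq_sub])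
  have c2 : IsCoprime ((x : Q5 ℤ) + z : Q5 ℤ) ((x : Q5 ℤ) + z ^ 2) := cop e1 (by rw [← f2, add_sub_add_left_eq_sub])
  obtain ⟨ea, ha⟩ := c3.mul_dvd (dv e1 h.a1) (dv e3 h.a3)
  obtain ⟨eb, hb⟩ := c2.mul_dvd (dv e1 h.b1) (dv e2 h.b2)
  obtain ⟨ed, hd⟩ := c3.mul_dvd (dv e1 h.d1) (dv e3 h.d3)
  have a2 : ((z : Q5 ℤ) ^ 4) ^ 2 = z ^ 3 := by decide
  have a3 : ((z : Q5 ℤ) ^ 4) ^ 3 = z ^ 2 := by decide
  have ua : ea * s4 ea = 1 := cancel_nat hn0 (by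
    have := h.nA
    rw [ha] at this
    simp only [map_mul, map_add, map_pow, map_intCast, s4_z, a3] at this
    linear_combination this + (ea * s4 ea) * e)
  have ub : eb * s4 eb = 1 := cancel_nat hn0 (by
    have := h.nB
    rw [hb] at this
    simp only [map_mul, map_add, map_pow, map_intCast, s4_z, a2] at this
    linear_combination this + (eb * s4 eb) * e)
  have ud : ed * s4 ed = 1 := cancel_nat hn0 (by
    have := h.nD
    rw [hd] at this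
    simp only [map_mul, map_add, map_pow, map_intCast, s4_z, a3] at this
    linear_combination this + (ed * s4 ed) * e)
  have uE : (ea * eb * ed) * s4 (ea * eb * ed) = 1 := by
    simp only [map_mul]
    linear_combination (eb * s4 eb) * (ed * s4 ed) * ua + (ed * s4 ed) * ub + ud
  obtain ⟨i, hi, hE⟩ := unit_eq uE
  have t := (h.tA.mul h.tB).mul h.tD
  have p1 : A * B * D = (ea * eb * ed) * (((x : Q5 ℤ) + z) ^ 3 * ((x : Q5 ℤ) + z ^ 2) * ((x : Q5 ℤ) + z ^ 3) ^ 2) := by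
    rw [ha, hb, hd]; ring
  have r5 : red (ZMod 5) (x : Q5 ℤ) = 1 := by
    have h5 : (5 : Q5 (ZMod 5)) = 0 := by decide
    rw [hk']
    simp only [map_add, map_mul, map_one, map_ofNat, h5, zero_mul, add_zero]
  have i2 : i = 2 := by
    rw [p1, T] at t
    rcases hE with hE | hE <;> rw [hE] at t <;>
      simp only [map_mul, map_pow, map_add, map_neg, red_z, r5] at t <;>
      interval_cases i <;> first | rfl | (exfalso; revert t; decide)
  subst i2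
  rw [mul_assoc, mul_assoc, ← mul_assoc A, p1, e, W, C_int]
  rcases hE with hE | hE <;> rw [hE]
  · left; ring
  · right; ring

/-- The reciprocity law: the symbol of `p` is read off from `W x` modulo `p`. -/
theorem Dat.symb {x : ℤ} {n : ℕ} {A B D : Q5 ℤ} {s : ℤ → Q5 ℤ} (h : Dat x n A B D s)
    (hW : n * A * B * D = W x ∨ n * A * B * D = -W x) (p f M j : ℕ) [Fact p.Prime]
    (hP : p ^ f = 5 * M + 1) (hc : Nat.Coprime p n) (h5 : ((5 : ℕ) : ZMod p) ≠ 0)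
    (hneg : (-1 : Q5 (ZMod p)) ^ M = 1) (hj : (W (x : ZMod p)) ^ M = z ^ j) {i : ℕ}
    (hs : s p = z ^ i) : 5 ∣ j + i * f := by
  have : NeZero ((5 : ℕ) : ZMod p) := ⟨h5⟩
  obtain ⟨ω, hω⟩ := HasEnoughRootsOfUnity.exists_primitiveRoot (AlgebraicClosure (ZMod p)) 5
  let τ := lift (algebraMap (ZMod p) (AlgebraicClosure (ZMod p))) ω (prim_root hω)
  have hτ : τ z = ω := lift_z _ _ _
  have h1 := h.fr p f M hP hc (τ.comp (red (ZMod p)))
    (by rw [RingHom.comp_apply, red_z, hτ]; exact hω.ne_one (by norm_num))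
  have h2 : ∀ k : ℕ, s ((p : ℤ) ^ k) = z ^ (i * k) := by
    intro k
    induction k with
    | zero => simpa using h.s5 1 1 isCoprime_one_left (by simp)
    | succ k ih => rw [pow_succ, h.sm, ih, hs, ← pow_add, mul_add, mul_one]
  have h3 : red (ZMod p) (n * A * B * D) ^ M = z ^ j := by
    rcases hW with hW | hW
    · rw [hW, red_W, hj]
    · rw [hW, map_neg, red_W, neg_pow, hneg, hj, one_mul]
  rw [h2, RingHom.comp_apply, RingHom.comp_apply, ← map_pow, h3, map_pow, map_pow, map_pow, red_z,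
    hτ, ← pow_add] at h1
  exact hω.dvd_of_pow_eq_one _ h1

end Pool.Agent.MP_dbc840_nt.r
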