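import Mathlib
import Pool.Agent.MP_dbc840_nt.r.Rec

/-! The chain of moduli `3 ^ (5 f) + 1`. -/

namespace Pool.Agent.MP_dbc840_nt.r

open Q5

theorem not_fifth {x : ℤ} (hx : 5 ∣ x - 1) (h2 : (x : ZMod 2) = 1) (p f M j : ℕ) [Fact p.Prime]
    (hP : p ^ f = 5 * M + 1) (h5 : ((5 : ℕ) : ZMod p) ≠ 0) (hM : Even M)
    (hN : (x : ZMod p) ^ 4 - (x : ZMod p) ^ 3 + (x : ZMod p) ^ 2 - x + 1 ≠ 0)
    (hj : (W (x : ZMod p)) ^ M = z ^ j) (hj5 : ¬ 5 ∣ j) (u : ℤ) (hu : u = 1 ∨ u = -1) (e : ℕ)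
    (m : ℤ) : ¬ Nm x ∣ u * 2 ^ e * p - m ^ 5 := by
  intro hd
  have hpos : 0 < Nm x := by
    rw [Nm]; nlinarith [sq_nonneg (2 * x ^ 2 - x), sq_nonneg (3 * x - 2)]
  obtain ⟨n, hn⟩ := Int.eq_ofNat_of_zero_le hpos.le
  have hn0 : n ≠ 0 := by rintro rfl; simp [hn] at hpos
  obtain ⟨A, B, D, s, h⟩ := exists_dat hx n hn0 (by rw [hn])
  have hW := h.prod_eq hx hn.symm hn0
  have cp : ∀ r : ℕ, r.Prime → (x : ZMod r) ^ 4 - (x : ZMod r) ^ 3 + (x : ZMod r) ^ 2 - x + 1 ≠ 0 →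
      Nat.Coprime r n := by
    intro r hr h0
    rw [hr.coprime_iff_not_dvd]
    intro h1
    apply h0
    have h3 := (ZMod.natCast_eq_zero_iff n r).2 h1
    rw [← Int.cast_natCast, ← hn, Nm] at h3
    push_cast at h3
    exact h3
  have c2 := cp 2 Nat.prime_two (by rw [h2]; decide)
  have c3 := cp p Fact.out hN
  have c2' : IsCoprime (2 : ℤ) n := by exact_mod_cast Nat.isCoprime_iff_coprime.2 c2
  have c3' : IsCoprime (p : ℤ) n := Nat.isCoprime_iff_coprime.2 c3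
  have cu : IsCoprime u n := by
    rcases hu with rfl | rfl
    exacts [isCoprime_one_left, isCoprime_one_left.neg_left]
  have s0 := h.s5 _ m ((cu.mul_left c2'.pow_left).mul_left c3') (hn ▸ hd)
  have su : s u = 1 := h.s5 u u cu (by rcases hu with rfl | rfl <;> norm_num)
  have s2' : s 2 = 1 := by
    obtain ⟨i, hi⟩ := h.s1 2 c2'
    have := h.symb hW 2 4 3 0 (by norm_num) c2 (by decide) (by decide) (by rw [h2]; decide) hi
    obtain ⟨k, rfl⟩ : 5 ∣ i := by omega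
    rw [hi, pow_mul, z5, one_pow]
  have se : ∀ k : ℕ, s (2 ^ k) = 1 := by
    intro k
    induction k with
    | zero => simpa using h.s5 1 1 isCoprime_one_left (by simp)
    | succ k ih => rw [pow_succ, h.sm, ih, s2', one_mul]
  rw [h.sm, h.sm, su, se, one_mul, one_mul] at s0
  have := h.symb hW p f M j hP c3 h5 hM.neg_one_pow hj (i := 0) (by rw [s0, pow_zero])
  exact hj5 (by simpa using this)

theorem c7a : (W (2 : ZMod 7)) ^ 480 = z ^ 4 := by decide +kernel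
theorem c7b : (W (4 : ZMod 7)) ^ 480 = z ^ 1 := by decide +kernel
theorem c13a : (W (3 : ZMod 13)) ^ 5712 = z ^ 2 := by
  rw [show 5712 = 84 * 68 by norm_num, pow_mul]; decide +kernel
theorem c13b : (W (9 : ZMod 13)) ^ 5712 = z ^ 3 := by
  rw [show 5712 = 84 * 68 by norm_num, pow_mul]; decide +kernel
theorem c11a : (W (3 : ZMod 11)) ^ 2 = z ^ 2 := by decide +kernel
theorem c11b : (W (4 : ZMod 11)) ^ 2 = z ^ 3 := by decide +kernel

local instance f7 : Fact (Nat.Prime 7) := ⟨by norm_num⟩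
local instance f11 : Fact (Nat.Prime 11) := ⟨by norm_num⟩
local instance f13 : Fact (Nat.Prime 13) := ⟨by norm_num⟩

theorem no28 {x : ℤ} (hx : 5 ∣ x - 1) (h2 : (x : ZMod 2) = 1)
    (h : (x : ZMod 7) = 2 ∨ (x : ZMod 7) = 4) (m : ℤ) : ¬ Nm x ∣ -28 - m ^ 5 := by
  rcases h with h | h
  · simpa using not_fifth hx h2 7 4 480 4 (by norm_num) (by decide) (by decide)
      (by rw [h]; decide) (by rw [h]; exact c7a) (by decide) (-1) (Or.inr rfl) 2 m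
  · simpa using not_fifth hx h2 7 4 480 1 (by norm_num) (by decide) (by decide)
      (by rw [h]; decide) (by rw [h]; exact c7b) (by decide) (-1) (Or.inr rfl) 2 m

theorem no26 {x : ℤ} (hx : 5 ∣ x - 1) (h2 : (x : ZMod 2) = 1)
    (h : (x : ZMod 13) = 3 ∨ (x : ZMod 13) = 9) (m : ℤ) : ¬ Nm x ∣ 26 - m ^ 5 := by
  rcases h with h | h
  · simpa using not_fifth hx h2 13 4 5712 2 (by norm_num) (by decide) (by norm_num)
      (by rw [h]; decide) (by rw [h]; exact c13a) (by decide) 1 (Or.inl rfl) 1 m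
  · simpa using not_fifth hx h2 13 4 5712 3 (by norm_num) (by decide) (by norm_num)
      (by rw [h]; decide) (by rw [h]; exact c13b) (by decide) 1 (Or.inl rfl) 1 m

theorem no22 {x : ℤ} (hx : 5 ∣ x - 1) (h2 : (x : ZMod 2) = 1)
    (h : (x : ZMod 11) = 3 ∨ (x : ZMod 11) = 4) (m : ℤ) : ¬ Nm x ∣ -22 - m ^ 5 := by
  rcases h with h | h
  · simpa using not_fifth hx h2 11 1 2 2 (by norm_num) (by decide) (by decide)
      (by rw [h]; decide) (by rw [h]; exact c11a) (by decide) (-1) (Or.inr rfl) 1 m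
  · simpa using not_fifth hx h2 11 1 2 3 (by norm_num) (by decide) (by decide)
      (by rw [h]; decide) (by rw [h]; exact c11b) (by decide) (-1) (Or.inr rfl) 1 m

theorem orbit (k : ℕ) : (3 : ZMod 5) ^ 2 ^ (k + 2) = 1 ∧
    ((3 : ZMod 7) ^ 2 ^ (k + 2) = 2 ∨ (3 : ZMod 7) ^ 2 ^ (k + 2) = 4) ∧
    ((3 : ZMod 13) ^ 2 ^ (k + 2) = 3 ∨ (3 : ZMod 13) ^ 2 ^ (k + 2) = 9) ∧
    (((3 : ZMod 11) ^ 2 ^ (k + 2) = 3 ∨ (3 : ZMod 11) ^ 2 ^ (k + 2) = 4) ∨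
      ((3 : ZMod 11) ^ 2 ^ (k + 2) = 9 ∨ (3 : ZMod 11) ^ 2 ^ (k + 2) = 5)) := by
  induction k with
  | zero => decide
  | succ k ih =>
    obtain ⟨h1, h2, h3, h4⟩ := ih
    simp only [show k + 1 + 2 = k + 2 + 1 by ring, pow_succ 2 (k + 2), pow_mul]
    refine ⟨by rw [h1]; decide, ?_, ?_, ?_⟩
    · rcases h2 with h | h <;> rw [h] <;> decide
    · rcases h3 with h | h <;> rw [h] <;> decide
    · rcases h4 with (h | h) | (h | h) <;> rw [h] <;> decide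

/-- The value of the left side modulo the norm of `x + z`. -/
theorem reduce {x m : ℤ} {u v : ℕ} (h : 27 * (x ^ 5) ^ u + 3 * (x ^ 5) ^ v + 2 = m ^ 5) :
    Nm x ∣ (27 * (-1) ^ u + 3 * (-1) ^ v + 2) - m ^ 5 := by
  have h1 : Nm x ∣ (-1) - x ^ 5 := ⟨-(x + 1), by rw [Nm]; ring⟩
  have h2 := h1.trans (sub_dvd_pow_sub_pow (-1) (x ^ 5) u)
  have h3 := h1.trans (sub_dvd_pow_sub_pow (-1) (x ^ 5) v)
  have := dvd_add (h2.mul_left 27) (h3.mul_left 3)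
  rwa [show (27 * (-1) ^ u + 3 * (-1) ^ v + 2) - m ^ 5 =
    27 * ((-1) ^ u - (x ^ 5) ^ u) + 3 * ((-1) ^ v - (x ^ 5) ^ v) by rw [← h]; ring]

theorem step {m : ℤ} {k u v : ℕ}
    (h : 27 * 3 ^ (15 * 2 ^ (k + 2) * u) + 3 * 3 ^ (15 * 2 ^ (k + 2) * v) + 2 = m ^ 5) :
    Even u ∧ Even v := by
  obtain ⟨o5, o7, o13, o11⟩ := orbit k
  set x : ℤ := 3 ^ 2 ^ (k + 2) with hx
  have cx : ∀ r : ℕ, (x : ZMod r) = 3 ^ 2 ^ (k + 2) := fun r => by rw [hx]; push_cast; rfl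
  have x5 : 5 ∣ x - 1 := (ZMod.intCast_zmod_eq_zero_iff_dvd _ 5).1 (by
    push_cast; rw [cx, o5, sub_self])
  have y5 : 5 ∣ x ^ 3 - 1 := x5.trans (by simpa using sub_dvd_pow_sub_pow x 1 3)
  have x2 : (x : ZMod 2) = 1 := by rw [cx, show (3 : ZMod 2) = 1 by decide, one_pow]
  have y2 : ((x ^ 3 : ℤ) : ZMod 2) = 1 := by push_cast; rw [x2, one_pow]
  have e1 : ∀ t : ℕ, (3 : ℤ) ^ (15 * 2 ^ (k + 2) * t) = (x ^ 5) ^ (3 * t) := fun t => by
    rw [hx, ← pow_mul, ← pow_mul]; congr 1; ring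
  have e2 : ∀ t : ℕ, (3 : ℤ) ^ (15 * 2 ^ (k + 2) * t) = ((x ^ 3) ^ 5) ^ t := fun t => by
    rw [hx, ← pow_mul, ← pow_mul, ← pow_mul]; congr 1; ring
  have r1 := reduce (x := x) (m := m) (u := 3 * u) (v := 3 * v) (by rw [← e1, ← e1]; exact h)
  have r2 := reduce (x := x ^ 3) (m := m) (u := u) (v := v) (by rw [← e2, ← e2]; exact h)
  have n3 : ∀ t : ℕ, (-1 : ℤ) ^ (3 * t) = (-1) ^ t := fun t => by rw [pow_mul]; norm_num
  rw [n3, n3] at r1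
  rw [← cx] at o7 o13 o11
  rcases Nat.even_or_odd u with hu | hu <;> rcases Nat.even_or_odd v with hv | hv
  · exact ⟨hu, hv⟩
  · rw [hu.neg_one_pow, hv.neg_one_pow] at r1
    exact absurd (by simpa using r1) (no26 x5 x2 o13 m)
  · rw [hu.neg_one_pow, hv.neg_one_pow] at r1 r2
    rcases o11 with o11 | o11
    · exact absurd (by simpa using r1) (no22 x5 x2 o11 m)
    · refine absurd (by simpa using r2) (no22 y5 y2 ?_ m)
      push_cast
      rcases o11 with o | o <;> rw [o] <;> decide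
  · rw [hu.neg_one_pow, hv.neg_one_pow] at r1
    exact absurd (by simpa using r1) (no28 x5 x2 o7 m)

theorem chain {m : ℤ} {A B : ℕ} (hA : 60 ∣ A) (hB : 60 ∣ B)
    (h : 27 * 3 ^ A + 3 * 3 ^ B + 2 = m ^ 5) : A = 0 ∧ B = 0 := by
  have key : ∀ k : ℕ, 15 * 2 ^ (k + 2) ∣ A ∧ 15 * 2 ^ (k + 2) ∣ B := by
    intro k
    induction k with
    | zero => exact ⟨hA, hB⟩
    | succ k ih =>
      obtain ⟨⟨u, rfl⟩, ⟨v, rfl⟩⟩ := ih
      obtain ⟨⟨u', rfl⟩, ⟨v', rfl⟩⟩ := step h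
      exact ⟨⟨u', by ring⟩, ⟨v', by ring⟩⟩
  have z0 : ∀ t : ℕ, 15 * 2 ^ (t + 2) ∣ t → t = 0 := fun t ht => by
    refine Nat.eq_zero_of_dvd_of_lt ht ?_
    have := Nat.lt_two_pow_self (n := t)
    rw [pow_add]; omega
  exact ⟨z0 A (key A).1, z0 B (key B).2⟩

/-- The test for a fifth power modulo `r` with exponent `e`. -/
def pass (r e a b : ℕ) : Bool :=
  ((3 ^ a + 3 ^ b + 2) % r) ^ e % r == 1 || ((3 ^ a + 3 ^ b + 2) % r) ^ e % r == 0

theorem table0 : ∀ a < 60, ∀ b < 60, (a % 2 == 1 && b % 2 == 1 && pass 25 4 a b && pass 31 6 a b &&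
    pass 271 54 a b && pass 1181 236 a b) = true → (a = 3 ∧ b = 1) ∨ (a = 1 ∧ b = 3) := by
  decide +kernel

theorem table (a : ℕ) (ha : a < 60) (b : ℕ) (hb : b < 60) (h1 : a % 2 = 1) (h2 : b % 2 = 1)
    (h3 : pass 25 4 a b) (h4 : pass 31 6 a b) (h5 : pass 271 54 a b) (h6 : pass 1181 236 a b) :
    (a = 3 ∧ b = 1) ∨ (a = 1 ∧ b = 3) :=
  table0 a ha b hb (by rw [h1, h2, h3, h4, h5, h6]; rfl)

theorem pass_of {r e a b n : ℕ} (h3 : 3 ^ 60 % r = 1 % r)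
    (hr : ∀ t < r, t ^ (5 * e) % r = 1 ∨ t ^ (5 * e) % r = 0) (h0 : 0 < r)
    (h : 3 ^ a + 3 ^ b + 2 = n ^ 5) : pass r e (a % 60) (b % 60) := by
  have h1 : ∀ c, 3 ^ (c % 60) ≡ 3 ^ c [MOD r] := fun c => by
    conv_rhs => rw [← Nat.div_add_mod c 60, pow_add, pow_mul]
    have := (Nat.ModEq.pow (c / 60) (show 3 ^ 60 ≡ 1 [MOD r] from h3)).mul_right (3 ^ (c % 60))
    rw [one_pow, one_mul] at this
    exact this.symm
  have h2 : (3 ^ (a % 60) + 3 ^ (b % 60) + 2) % r ≡ (n % r) ^ 5 [MOD r] :=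
    (Nat.mod_modEq _ _).trans (((h1 a).add (h1 b)).add_right 2 |>.trans
      (h ▸ ((Nat.mod_modEq n r).pow 5).symm))
  have h4 := h2.pow e
  rw [← pow_mul, Nat.ModEq] at h4
  simp only [pass, h4, Bool.or_eq_true, beq_iff_eq]
  exact hr _ (Nat.mod_lt _ h0)

theorem classes {a b n : ℕ} (ha : a % 2 = 1) (hb : b % 2 = 1) (h : 3 ^ a + 3 ^ b + 2 = n ^ 5) :
    (a % 60 = 3 ∧ b % 60 = 1) ∨ (a % 60 = 1 ∧ b % 60 = 3) :=
  table _ (Nat.mod_lt _ (by norm_num)) _ (Nat.mod_lt _ (by norm_num)) (by omega) (by omega)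
    (pass_of (by norm_num) (by decide +kernel) (by norm_num) h)
    (pass_of (by norm_num) (by decide +kernel) (by norm_num) h)
    (pass_of (by norm_num) (by decide +kernel) (by norm_num) h)
    (pass_of (by norm_num) (by decide +kernel) (by norm_num) h)

theorem only {a b : ℕ} {m : ℤ} (ha : Odd a) (hb : Odd b) (h : (3 : ℤ) ^ a + 3 ^ b + 2 = m ^ 5) :
    (a = 3 ∧ b = 1) ∨ (a = 1 ∧ b = 3) := by
  rw [Nat.odd_iff] at ha hb
  have h1 : 3 ^ a + 3 ^ b + 2 = m.natAbs ^ 5 := by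
    rw [← Int.natAbs_pow, ← h]
    exact_mod_cast (Int.natAbs_natCast _).symm
  rcases classes ha hb h1 with ⟨h2, h3⟩ | ⟨h2, h3⟩
  · obtain ⟨A, rfl⟩ : ∃ A, a = A + 3 := ⟨a - 3, by omega⟩
    obtain ⟨B, rfl⟩ : ∃ B, b = B + 1 := ⟨b - 1, by omega⟩
    have := chain (m := m) (A := A) (B := B) (by omega) (by omega) (by rw [← h]; ring)
    omega
  · obtain ⟨A, rfl⟩ : ∃ A, b = A + 3 := ⟨b - 3, by omega⟩
    obtain ⟨B, rfl⟩ : ∃ B, a = B + 1 := ⟨a - 1, by omega⟩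
    have := chain (m := m) (A := A) (B := B) (by omega) (by omega) (by rw [← h]; ring)
    omega

end Pool.Agent.MP_dbc840_nt.r
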